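import Pool.Agent.Helper43.FV.Spec

set_option autoImplicit false

/-! # SLICE: generic lifting of denominators -/

namespace Pool.Agent.Helper43.FV

open scoped TensorProduct

theorem SLICE_sub {S R : Type} [CommRing S] [Algebra ℂ S] [CommRing R] [Algebra ℂ R]
    (z : S →ₐ[ℂ] ℂ) (t : S ⊗[ℂ] R) :
    t - (1 : S) ⊗ₜ[ℂ] (evT z t) ∈ (RingHom.ker z).map (algebraMap S (S ⊗[ℂ] R)) := by
  induction t using TensorProduct.induction_on with
  | zero => simp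
  | tmul a r =>
    have h1 : evT z (a ⊗ₜ[ℂ] r) = z a • r := by
      unfold evT
      rw [Algebra.TensorProduct.lift_tmul]
      simp [Algebra.ofId_apply, Algebra.smul_def]
    have h2 : a ⊗ₜ[ℂ] r - (1 : S) ⊗ₜ[ℂ] (evT z (a ⊗ₜ[ℂ] r)) =
        algebraMap S (S ⊗[ℂ] R) (a - algebraMap ℂ S (z a)) * ((1 : S) ⊗ₜ[ℂ] r) := by
      rw [h1, Algebra.TensorProduct.algebraMap_apply, Algebra.algebraMap_self, RingHom.id_apply,
        Algebra.TensorProduct.tmul_mul_tmul, mul_one, one_mul, TensorProduct.sub_tmul,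
        Algebra.algebraMap_eq_smul_one, TensorProduct.smul_tmul]
    rw [h2]
    refine Ideal.mul_mem_right _ _ (Ideal.mem_map_of_mem _ ?_)
    rw [RingHom.mem_ker, map_sub, AlgHom.commutes]
    simp
  | add x y hx hy =>
    have h3 : x + y - (1 : S) ⊗ₜ[ℂ] (evT z (x + y)) =
        (x - (1 : S) ⊗ₜ[ℂ] (evT z x)) + (y - (1 : S) ⊗ₜ[ℂ] (evT z y)) := by
      rw [map_add, TensorProduct.tmul_add]
      ring
    rw [h3]
    exact Ideal.add_mem _ hx hy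

theorem SLICE_ker {S R : Type} [CommRing S] [Algebra ℂ S] [CommRing R] [Algebra ℂ R]
    (z : S →ₐ[ℂ] ℂ) (t : S ⊗[ℂ] R) (ht : t ∈ (RingHom.ker z).map (algebraMap S (S ⊗[ℂ] R))) :
    evT z t = 0 := by
  have h : (RingHom.ker z).map (algebraMap S (S ⊗[ℂ] R)) ≤ RingHom.ker (evT (R := R) z) := by
    rw [Ideal.map_le_iff_le_comap]
    intro a ha
    rw [Ideal.mem_comap, RingHom.mem_ker, Algebra.TensorProduct.algebraMap_apply,
      Algebra.algebraMap_self, RingHom.id_apply]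
    rw [RingHom.mem_ker] at ha
    unfold evT
    rw [Algebra.TensorProduct.lift_tmul]
    simp [Algebra.ofId_apply, ha]
  exact h ht

theorem st_SLICE (hS : ST_SUMM) : ST_SLICE := by
  intro S R _ _ _ _ _ _ _ N D
  haveI : IsNoetherianRing S := Algebra.FiniteType.isNoetherianRing ℂ S
  obtain ⟨h, h0, hh⟩ := hS S (S ⊗[ℂ] R) (Ideal.span {N, D})
  refine ⟨h, h0, fun z hz e₀ q₀ heq => ?_⟩
  have hprime : (RingHom.ker z).IsPrime := RingHom.ker_isPrime z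
  have hx1 : (1 : S) ⊗ₜ[ℂ] e₀ * N - (1 : S) ⊗ₜ[ℂ] q₀ * D ∈ Ideal.span {N, D} :=
    Ideal.sub_mem _ (Ideal.mul_mem_left _ _ (Ideal.subset_span (by simp)))
      (Ideal.mul_mem_left _ _ (Ideal.subset_span (by simp)))
  have hev : ∀ r : R, evT z ((1 : S) ⊗ₜ[ℂ] r) = r := by
    intro r
    unfold evT
    rw [Algebra.TensorProduct.lift_tmul]
    simp
  have hx2 : (1 : S) ⊗ₜ[ℂ] e₀ * N - (1 : S) ⊗ₜ[ℂ] q₀ * D ∈
      (RingHom.ker z).map (algebraMap S (S ⊗[ℂ] R)) := by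
    have h1 := SLICE_sub z ((1 : S) ⊗ₜ[ℂ] e₀ * N - (1 : S) ⊗ₜ[ℂ] q₀ * D)
    rw [map_sub, map_mul, map_mul, hev, hev, heq, sub_self, TensorProduct.tmul_zero,
      sub_zero] at h1
    exact h1
  obtain ⟨n, hn⟩ := hh (RingHom.ker z) hprime (fun hm => hz hm) _ hx1 hx2
  rw [Ideal.span_insert, Ideal.mul_sup, Submodule.mem_sup] at hn
  obtain ⟨y1, hy1, y2, hy2, hy⟩ := hn
  obtain ⟨α, hα, rfl⟩ := Ideal.mem_mul_span_singleton.1 hy1
  obtain ⟨β, hβ, rfl⟩ := Ideal.mem_mul_span_singleton.1 hy2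
  refine ⟨algebraMap S (S ⊗[ℂ] R) (h ^ n) * (1 : S) ⊗ₜ[ℂ] e₀ - α,
    algebraMap S (S ⊗[ℂ] R) (h ^ n) * (1 : S) ⊗ₜ[ℂ] q₀ + β, n, ?_, ?_⟩
  · linear_combination (-1 : S ⊗[ℂ] R) * hy
  · rw [map_sub, SLICE_ker z α hα, sub_zero, map_mul, hev]
    have h2 : evT (R := R) z (algebraMap S (S ⊗[ℂ] R) (h ^ n)) = algebraMap ℂ R (z h ^ n) := by
      rw [Algebra.TensorProduct.algebraMap_apply, Algebra.algebraMap_self, RingHom.id_apply]
      unfold evT
      rw [Algebra.TensorProduct.lift_tmul]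
      simp [Algebra.ofId_apply]
    rw [h2, Algebra.smul_def]

end Pool.Agent.Helper43.FV
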