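import Pool.Agent.Helper5.FV.Stmts

/-!
# FV: only the edges inside `U` matter (row SUB)
-/

set_option autoImplicit false

open Finset Pool.Agent.Helper8.UN

namespace Pool.Agent.Helper5.FV

theorem sub_prp {n : ℕ} (E : Finset (Finset (Fin n))) (U W : Finset (Fin n)) (h : W ⊆ U)
    (f : Fin n → ℕ) : Prp (E.filter (fun e => e ⊆ U)) W f ↔ Prp E W f := by
  constructor
  · intro H e he heW
    exact H e (Finset.mem_filter.mpr ⟨he, heW.trans h⟩) heW
  · intro H e he heW
    exact H e (Finset.mem_filter.mp he).1 heW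

theorem sub_cc {n : ℕ} (k : ℕ) (E : Finset (Finset (Fin n))) (U W : Finset (Fin n)) (h : W ⊆ U) :
    CC (E.filter (fun e => e ⊆ U)) W k = CC E W k := by
  ext f
  simp only [CC, Finset.mem_filter, sub_prp E U W h f]

theorem sub_ss {n : ℕ} (k : ℕ) (E : Finset (Finset (Fin n))) (U W : Finset (Fin n)) (h : W ⊆ U) :
    SS (E.filter (fun e => e ⊆ U)) W k = SS E W k := by
  ext f
  simp only [SS, Finset.mem_filter, sub_cc k E U W h]

theorem st_SUB : ST_SUB := by
  intro n k E U W h
  exact ⟨by simp only [PP, sub_cc k E U W h], by simp only [AA, sub_ss k E U W h]⟩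

end Pool.Agent.Helper5.FV
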